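import Pool.Graph.R_pool_sql_team_seeded_47a924f7.Results.MP_9fa5c3_co.TwoTwoCovers

/-!
# MP_9fa5c3_co: the exact set of guaranteed `(p, q)`-covers of cocktail-party graphs

The library proves that every 2-colouring of `G_n` has a `(2,2)`-cover (imported).  New here: for
at least five vertices, if every vertex is non-adjacent to at most one other vertex, there is a
`(0,3)`-cover; and for every even `n ≥ 6` there is a 2-colouring of `G_n` without a `(1,2)`-cover.
So the pairs `(p, q)` which are guaranteed are exactly known for every even `n`.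
-/

set_option maxHeartbeats 4000000
set_option linter.all false
set_option autoImplicit false

namespace Pool.Agent.Results.MP_9fa5c3_co.ExactPairs

open Pool.Agent.Results.MP_9fa5c3_co.TwoTwoCovers

section
variable {V : Type}

/-- `a` and `b` are joined by a path of length at most three inside `S`. -/
def P3 (R : V → V → Prop) (S : V → Prop) (a b : V) : Prop :=
  ∃ z w, S z ∧ S w ∧ (a = z ∨ R a z) ∧ (z = w ∨ R z w) ∧ (w = b ∨ R w b)

def Good3 (R : V → V → Prop) (S : V → Prop) : Prop := ∀ a b, S a → S b → P3 R S a b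

lemma P3.symm {R : V → V → Prop} (Rs : ∀ a b, R a b → R b a) {S : V → Prop} {a b : V}
    (h : P3 R S a b) : P3 R S b a := by
  obtain ⟨z, w, h1, h2, h3, h4, h5⟩ := h
  exact ⟨w, z, h2, h1, h5.imp Eq.symm (Rs _ _), h4.imp Eq.symm (Rs _ _),
    h3.imp Eq.symm (Rs _ _)⟩

/-- double stars -/
lemma good_double {R : V → V → Prop} (Rs : ∀ a b, R a b → R b a) {S : V → Prop} {x y : V}
    (hx : S x) (hy : S y) (hxy : R x y) (h : ∀ a, S a → a = x ∨ a = y ∨ R x a ∨ R y a) :
    Good3 R S := by
  intro a b ha hb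
  have hyx := Rs _ _ hxy
  rcases h a ha with rfl | rfl | h1 | h1 <;> rcases h b hb with rfl | rfl | h2 | h2
  · exact ⟨_, _, ha, ha, Or.inl rfl, Or.inl rfl, Or.inl rfl⟩
  · exact ⟨_, _, ha, ha, Or.inl rfl, Or.inl rfl, Or.inr hxy⟩
  · exact ⟨_, _, ha, ha, Or.inl rfl, Or.inl rfl, Or.inr h2⟩
  · exact ⟨_, _, ha, hy, Or.inl rfl, Or.inr hxy, Or.inr h2⟩
  · exact ⟨_, _, ha, ha, Or.inl rfl, Or.inl rfl, Or.inr hyx⟩
  · exact ⟨_, _, ha, ha, Or.inl rfl, Or.inl rfl, Or.inl rfl⟩
  · exact ⟨_, _, ha, hx, Or.inl rfl, Or.inr hyx, Or.inr h2⟩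
  · exact ⟨_, _, ha, ha, Or.inl rfl, Or.inl rfl, Or.inr h2⟩
  · exact ⟨_, _, ha, ha, Or.inl rfl, Or.inl rfl, Or.inr (Rs _ _ h1)⟩
  · exact ⟨_, _, ha, hx, Or.inl rfl, Or.inr (Rs _ _ h1), Or.inr hxy⟩
  · exact ⟨_, _, ha, hx, Or.inl rfl, Or.inr (Rs _ _ h1), Or.inr h2⟩
  · exact ⟨_, _, hx, hy, Or.inr (Rs _ _ h1), Or.inr hxy, Or.inr h2⟩
  · exact ⟨_, _, ha, hy, Or.inl rfl, Or.inr (Rs _ _ h1), Or.inr hyx⟩
  · exact ⟨_, _, ha, ha, Or.inl rfl, Or.inl rfl, Or.inr (Rs _ _ h1)⟩
  · exact ⟨_, _, hy, hx, Or.inr (Rs _ _ h1), Or.inr hyx, Or.inr h2⟩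
  · exact ⟨_, _, ha, hy, Or.inl rfl, Or.inr (Rs _ _ h1), Or.inr h2⟩


variable {R B N : V → V → Prop} (Rs : ∀ a b, R a b → R b a) (Bs : ∀ a b, B a b → B b a)
  (Ns : ∀ a b, N a b → N b a) (Rx : ∀ a, ¬ R a a) (Bx : ∀ a, ¬ B a a) (Nx : ∀ a, ¬ N a a)
  (tot : ∀ a b, a ≠ b → R a b ∨ B a b ∨ N a b)
  (Nu : ∀ v a b, N v a → N v b → a = b)

include Rs Bs Ns Rx Bx Nx tot Nu in
/-- the case of adjacent `x`, `y` with two bad vertices -/
lemma case_two {x y u v : V} (F : ∀ z w, (x = z ∨ B x z) → (z = w ∨ B z w) → (w = y ∨ B w y) → False)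
    (hR : R x y) (hu1 : B x u) (hu2 : N y u) (hv1 : B y v) (hv2 : N x v)
    (h5 : ∃ e, e ≠ x ∧ e ≠ y ∧ e ≠ u ∧ e ≠ v) :
    (∃ v, Good3 R (· ≠ v)) ∨ (∃ v, Good3 B (· ≠ v)) ∨ Good3 R (fun _ => True) := by
  have hyx := Rs _ _ hR
  have hne : x ≠ y := fun h => F x x (Or.inl rfl) (Or.inl rfl) (Or.inl h)
  have hxu : x ≠ u := by rintro rfl; exact Bx _ hu1
  have hxv : x ≠ v := by rintro rfl; exact Nx _ hv2
  have hyu : y ≠ u := by rintro rfl; exact Nx _ hu2
  have hyv : y ≠ v := by rintro rfl; exact Bx _ hv1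
  have huv : u ≠ v := by
    rintro rfl
    exact F u u (Or.inr hu1) (Or.inl rfl) (Or.inr (Bs _ _ hv1))
  have hRuv : R u v := by
    rcases tot u v huv with h | h | h
    · exact h
    · exact (F u v (Or.inr hu1) (Or.inr h) (Or.inr (Bs _ _ hv1))).elim
    · exact (hne (Nu v x y (Ns _ _ hv2) (by
        have := Nu u y v (Ns _ _ hu2) h
        exact absurd this hyv))).elim
  have hRvu := Rs _ _ hRuv
  -- the other vertices
  have cls : ∀ w, w = x ∨ w = y ∨ w = u ∨ w = v ∨ (B x w ∧ R y w ∧ R v w ∧ w ≠ u) ∨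
      (B y w ∧ R x w ∧ R u w ∧ w ≠ v) ∨ (R x w ∧ R y w ∧ w ≠ u ∧ w ≠ v ∧ w ≠ x ∧ w ≠ y) := by
    intro w
    by_cases e1 : w = x
    · exact Or.inl e1
    by_cases e2 : w = y
    · exact Or.inr (Or.inl e2)
    by_cases e3 : w = u
    · exact Or.inr (Or.inr (Or.inl e3))
    by_cases e4 : w = v
    · exact Or.inr (Or.inr (Or.inr (Or.inl e4)))
    have n1 : ¬ N x w := fun h => e4 (Nu x w v h hv2)
    have n2 : ¬ N y w := fun h => e3 (Nu y w u h hu2)
    have n3 : ¬ N u w := fun h => e2 (Nu u w y h (Ns _ _ hu2))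
    have n4 : ¬ N v w := fun h => e1 (Nu v w x h (Ns _ _ hv2))
    rcases tot x w (Ne.symm e1) with h1 | h1 | h1
    · rcases tot y w (Ne.symm e2) with h2 | h2 | h2
      · right; right; right; right; right; right
        exact ⟨h1, h2, e3, e4, e1, e2⟩
      · right; right; right; right; right; left
        refine ⟨h2, h1, ?_, e4⟩
        rcases tot u w (Ne.symm e3) with h3 | h3 | h3
        · exact h3
        · exact (F u w (Or.inr hu1) (Or.inr h3) (Or.inr (Bs _ _ h2))).elim
        · exact absurd h3 n3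
      · exact absurd h2 n2
    · right; right; right; right; left
      refine ⟨h1, ?_, ?_, e3⟩
      · rcases tot y w (Ne.symm e2) with h2 | h2 | h2
        · exact h2
        · exact (F w w (Or.inr h1) (Or.inl rfl) (Or.inr (Bs _ _ h2))).elim
        · exact absurd h2 n2
      · rcases tot v w (Ne.symm e4) with h3 | h3 | h3
        · exact h3
        · exact (F w v (Or.inr h1) (Or.inr (Bs _ _ h3)) (Or.inr (Bs _ _ hv1))).elim
        · exact absurd h3 n4
    · exact absurd h1 n1
  by_cases hX : ∃ x', B x x' ∧ x' ≠ u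
  · obtain ⟨x', hx1, hx2⟩ := hX
    have hx3 : R y x' ∧ R v x' := by
      rcases cls x' with h | h | h | h | h | h | h
      all_goals grind
    by_cases hY : ∃ y', B y y' ∧ y' ≠ v
    · obtain ⟨y', hy1, hy2⟩ := hY
      have hy3 : R x y' ∧ R u y' := by
        rcases cls y' with h | h | h | h | h | h | h
        all_goals grind
      right; right
      intro a b _ _
      by_contra hc
      have key : ∀ z w, (a = z ∨ R a z) → (z = w ∨ R z w) → (w = b ∨ R w b) → False :=
        fun z w h1 h2 h3 => hc ⟨z, w, trivial, trivial, h1, h2, h3⟩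
      rcases cls a with h | h | h | h | h | h | h <;> rcases cls b with h' | h' | h' | h' | h' | h' | h' <;>
        grind
    · left
      refine ⟨u, ?_⟩
      intro a b ha hb
      by_contra hc
      have key : ∀ z w, z ≠ u → w ≠ u → (a = z ∨ R a z) → (z = w ∨ R z w) → (w = b ∨ R w b) → False :=
        fun z w g1 g2 h1 h2 h3 => hc ⟨z, w, g1, g2, h1, h2, h3⟩
      rcases cls a with h | h | h | h | h | h | h <;> rcases cls b with h' | h' | h' | h' | h' | h' | h' <;>
        grind
  · by_cases hY : ∃ y', B y y' ∧ y' ≠ v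
    · obtain ⟨y', hy1, hy2⟩ := hY
      have hy3 : R x y' ∧ R u y' := by
        rcases cls y' with h | h | h | h | h | h | h
        all_goals grind
      left
      refine ⟨v, ?_⟩
      intro a b ha hb
      by_contra hc
      have key : ∀ z w, z ≠ v → w ≠ v → (a = z ∨ R a z) → (z = w ∨ R z w) → (w = b ∨ R w b) → False :=
        fun z w g1 g2 h1 h2 h3 => hc ⟨z, w, g1, g2, h1, h2, h3⟩
      rcases cls a with h | h | h | h | h | h | h <;> rcases cls b with h' | h' | h' | h' | h' | h' | h' <;>
        grind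
    · -- all other vertices are red to `x` and `y`
      obtain ⟨z0, z1, z2, z3, z4⟩ := h5
      have hz0 : R x z0 ∧ R y z0 := by
        rcases cls z0 with h | h | h | h | h | h | h
        all_goals grind
      by_cases hZu : ∃ z, R u z ∧ R x z ∧ R y z ∧ z ≠ v
      · obtain ⟨z, g1, g2, g3, g4⟩ := hZu
        left
        refine ⟨v, ?_⟩
        intro a b ha hb
        by_contra hc
        have key : ∀ z w, z ≠ v → w ≠ v → (a = z ∨ R a z) → (z = w ∨ R z w) → (w = b ∨ R w b) → False :=
          fun z w g1 g2 h1 h2 h3 => hc ⟨z, w, g1, g2, h1, h2, h3⟩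
        rcases cls a with h | h | h | h | h | h | h <;> rcases cls b with h' | h' | h' | h' | h' | h' | h' <;>
          grind
      · by_cases hZv : ∃ z, R v z ∧ R x z ∧ R y z ∧ z ≠ u
        · obtain ⟨z, g1, g2, g3, g4⟩ := hZv
          left
          refine ⟨u, ?_⟩
          intro a b ha hb
          by_contra hc
          have key : ∀ z w, z ≠ u → w ≠ u → (a = z ∨ R a z) → (z = w ∨ R z w) → (w = b ∨ R w b) → False :=
            fun z w g1 g2 h1 h2 h3 => hc ⟨z, w, g1, g2, h1, h2, h3⟩
          rcases cls a with h | h | h | h | h | h | h <;> rcases cls b with h' | h' | h' | h' | h' | h' | h' <;>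
            grind
        · -- all other vertices are blue to `u` and `v`
          have cls' : ∀ w, w = x ∨ w = y ∨ w = u ∨ w = v ∨
              (B u w ∧ B v w ∧ w ≠ x) := by
            intro w
            rcases cls w with h | h | h | h | h | h | h
            · exact Or.inl h
            · exact Or.inr (Or.inl h)
            · exact Or.inr (Or.inr (Or.inl h))
            · exact Or.inr (Or.inr (Or.inr (Or.inl h)))
            · exact absurd ⟨w, h.1, h.2.2.2⟩ hX
            · exact absurd ⟨w, h.1, h.2.2.2⟩ hY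
            · obtain ⟨h1, h2, e3, e4, e1, e2⟩ := h
              have n3 : ¬ N u w := fun h => e2 (Nu u w y h (Ns _ _ hu2))
              have n4 : ¬ N v w := fun h => e1 (Nu v w x h (Ns _ _ hv2))
              have n5 : ¬ R u w := fun h => hZu ⟨w, h, h1, h2, e4⟩
              have n6 : ¬ R v w := fun h => hZv ⟨w, h, h1, h2, e3⟩
              have m1 := tot u w (Ne.symm e3)
              have m2 := tot v w (Ne.symm e4)
              exact Or.inr (Or.inr (Or.inr (Or.inr ⟨by tauto, by tauto, e1⟩)))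
          have hz0' : B u z0 ∧ B v z0 := by
            rcases cls' z0 with h | h | h | h | h
            all_goals grind
          right; left
          refine ⟨x, ?_⟩
          intro a b ha hb
          by_contra hc
          have key : ∀ z w, z ≠ x → w ≠ x → (a = z ∨ B a z) → (z = w ∨ B z w) → (w = b ∨ B w b) → False :=
            fun z w g1 g2 h1 h2 h3 => hc ⟨z, w, g1, g2, h1, h2, h3⟩
          rcases cls' a with h | h | h | h | h <;> rcases cls' b with h' | h' | h' | h' | h' <;>
            grind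

include Rs Bs Ns Rx Bx Nx tot Nu in
/-- the case of adjacent `x`, `y` -/
lemma case_adj {x y : V} (F : ∀ z w, (x = z ∨ B x z) → (z = w ∨ B z w) → (w = y ∨ B w y) → False)
    (hR : R x y) (h5 : ∀ a b c d : V, ∃ e, e ≠ a ∧ e ≠ b ∧ e ≠ c ∧ e ≠ d) :
    (∃ v, Good3 R (· ≠ v)) ∨ (∃ v, Good3 B (· ≠ v)) ∨ Good3 R (fun _ => True) := by
  have hne : x ≠ y := fun h => F x x (Or.inl rfl) (Or.inl rfl) (Or.inl h)
  have hnc : ∀ w, B x w → B y w → False := fun w h1 h2 =>
    F w w (Or.inr h1) (Or.inl rfl) (Or.inr (Bs _ _ h2))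
  have hnn : ∀ w, N x w → N y w → False := fun w h1 h2 =>
    hne (Nu w x y (Ns _ _ h1) (Ns _ _ h2))
  by_cases hu : ∃ u, B x u ∧ N y u
  · obtain ⟨u, hu1, hu2⟩ := hu
    by_cases hv : ∃ v, B y v ∧ N x v
    · obtain ⟨v, hv1, hv2⟩ := hv
      exact case_two Rs Bs Ns Rx Bx Nx tot Nu F hR hu1 hu2 hv1 hv2 (h5 _ _ _ _)
    · left
      clear h5
      refine ⟨u, good_double Rs (x := x) (y := y) ?_ ?_ hR ?_⟩
      · rintro rfl; exact Bx _ hu1
      · rintro rfl; exact Nx _ hu2
      · intro a ha
        by_contra hc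
        push Not at hc
        obtain ⟨c1, c2, c3, c4⟩ := hc
        rcases tot x a (Ne.symm c1) with h | h | h
        · exact c3 h
        · rcases tot y a (Ne.symm c2) with h' | h' | h'
          · exact c4 h'
          · exact hnc a h h'
          · exact ha (Nu y a u h' hu2)
        · rcases tot y a (Ne.symm c2) with h' | h' | h'
          · exact c4 h'
          · exact hv ⟨a, h', h⟩
          · exact hnn a h h'
  · by_cases hv : ∃ v, B y v ∧ N x v
    · obtain ⟨v, hv1, hv2⟩ := hv
      left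
      refine ⟨v, good_double Rs (x := x) (y := y) ?_ ?_ hR ?_⟩
      · rintro rfl; exact Nx _ hv2
      · rintro rfl; exact Bx _ hv1
      · intro a ha
        by_contra hc
        push Not at hc
        obtain ⟨c1, c2, c3, c4⟩ := hc
        rcases tot x a (Ne.symm c1) with h | h | h
        · exact c3 h
        · rcases tot y a (Ne.symm c2) with h' | h' | h'
          · exact c4 h'
          · exact hnc a h h'
          · exact hu ⟨a, h, h'⟩
        · exact ha (Nu x a v h hv2)
    · right; right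
      refine good_double Rs (x := x) (y := y) trivial trivial hR ?_
      intro a ha
      by_contra hc
      push Not at hc
      obtain ⟨c1, c2, c3, c4⟩ := hc
      rcases tot x a (Ne.symm c1) with h | h | h
      · exact c3 h
      · rcases tot y a (Ne.symm c2) with h' | h' | h'
        · exact c4 h'
        · exact hnc a h h'
        · exact hu ⟨a, h, h'⟩
      · rcases tot y a (Ne.symm c2) with h' | h' | h'
        · exact c4 h'
        · exact hv ⟨a, h', h⟩
        · exact hnn a h h'

include Rs Bs Ns Rx Bx Nx tot Nu in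
/-- the case of non-adjacent `x`, `y` -/
lemma case_non {x y : V} (F : ∀ z w, (x = z ∨ B x z) → (z = w ∨ B z w) → (w = y ∨ B w y) → False)
    (hN : N x y) (h5 : ∀ a b c d : V, ∃ e, e ≠ a ∧ e ≠ b ∧ e ≠ c ∧ e ≠ d) :
    (∃ v, Good3 R (· ≠ v)) ∨ (∃ v, Good3 B (· ≠ v)) ∨ Good3 R (fun _ => True) := by
  have hne : x ≠ y := fun h => F x x (Or.inl rfl) (Or.inl rfl) (Or.inl h)
  have hnc : ∀ w, B x w → B y w → False := fun w h1 h2 =>
    F w w (Or.inr h1) (Or.inl rfl) (Or.inr (Bs _ _ h2))
  have hnb : ∀ w w', B x w → B y w' → B w w' → False := fun w w' h1 h2 h3 =>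
    F w w' (Or.inr h1) (Or.inr h3) (Or.inr (Bs _ _ h2))
  have cls : ∀ w, w = x ∨ w = y ∨ (B x w ∧ R y w ∧ w ≠ x ∧ w ≠ y) ∨ (R x w ∧ B y w ∧ w ≠ x ∧ w ≠ y) ∨
      (R x w ∧ R y w ∧ w ≠ x ∧ w ≠ y) := by
    intro w
    by_cases e1 : w = x
    · exact Or.inl e1
    by_cases e2 : w = y
    · exact Or.inr (Or.inl e2)
    have n1 : ¬ N x w := fun h => e2 (Nu x w y h hN)
    have n2 : ¬ N y w := fun h => e1 (Nu y w x h (Ns _ _ hN))
    have m1 := tot x w (Ne.symm e1)
    have m2 := tot y w (Ne.symm e2)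
    have m3 := hnc w
    tauto
  have hXY : ∀ u v, B x u → B y v → R u v ∨ N u v := by
    intro u v hu hv
    have : u ≠ v := by rintro rfl; exact hnc _ hu hv
    rcases tot u v this with h | h | h
    · exact Or.inl h
    · exact (hnb u v hu hv h).elim
    · exact Or.inr h
  by_cases hZ : ∃ z, R x z ∧ R y z
  · obtain ⟨z0, hz1, hz2⟩ := hZ
    clear h5
    by_cases hbad : ∃ u v, B x u ∧ B y v ∧ N u v ∧ ¬ P3 R (fun _ => True) u v
    · obtain ⟨u, v, hu, hv, huv, hno⟩ := hbad
      have hno' : ∀ z w, (u = z ∨ R u z) → (z = w ∨ R z w) → (w = v ∨ R w v) → False :=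
        fun z w h1 h2 h3 => hno ⟨z, w, trivial, trivial, h1, h2, h3⟩
      have hX : ∀ u', B x u' → u' = u := by
        intro u' hu'
        by_contra hne'
        rcases hXY u' v hu' hv with h | h
        · rcases cls u' with g | g | g | g | g <;> rcases cls u with g' | g' | g' | g' | g' <;> grind
        · exact hne' (Nu v u' u (Ns _ _ h) (Ns _ _ huv))
      left
      refine ⟨u, ?_⟩
      intro a b ha hb
      by_contra hc
      have key : ∀ z w, z ≠ u → w ≠ u → (a = z ∨ R a z) → (z = w ∨ R z w) → (w = b ∨ R w b) → False :=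
        fun z w g1 g2 h1 h2 h3 => hc ⟨z, w, g1, g2, h1, h2, h3⟩
      rcases cls a with h | h | h | h | h <;> rcases cls b with h' | h' | h' | h' | h' <;>
        grind
    · right; right
      intro a b _ _
      by_contra hc
      have key : ∀ z w, (a = z ∨ R a z) → (z = w ∨ R z w) → (w = b ∨ R w b) → False :=
        fun z w h1 h2 h3 => hc ⟨z, w, trivial, trivial, h1, h2, h3⟩
      have hbad' : ∀ u v, B x u → B y v → N u v → P3 R (fun _ => True) u v := by
        intro u v h1 h2 h3
        by_contra h4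
        exact hbad ⟨u, v, h1, h2, h3, h4⟩
      rcases cls a with h | h | h | h | h <;> rcases cls b with h' | h' | h' | h' | h' <;>
        first
          | grind
          | (rcases hXY a b h.1 h'.2.1 with g | g
             · exact key a a (Or.inl rfl) (Or.inl rfl) (Or.inr g)
             · exact hc (hbad' a b h.1 h'.2.1 g))
          | (rcases hXY b a h'.1 h.2.1 with g | g
             · exact key a a (Or.inl rfl) (Or.inl rfl) (Or.inr (Rs _ _ g))
             · exact hc ((hbad' b a h'.1 h.2.1 g).symm Rs))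
  · have cls' : ∀ w, w = x ∨ w = y ∨ (B x w ∧ R y w ∧ w ≠ x ∧ w ≠ y) ∨
        (R x w ∧ B y w ∧ w ≠ x ∧ w ≠ y) := by
      intro w
      rcases cls w with h | h | h | h | h
      · exact Or.inl h
      · exact Or.inr (Or.inl h)
      · exact Or.inr (Or.inr (Or.inl h))
      · exact Or.inr (Or.inr (Or.inr h))
      · exact absurd ⟨w, h.1, h.2.1⟩ hZ
    by_cases hX0 : ∃ u, B x u
    · by_cases hY0 : ∃ v, B y v
      · obtain ⟨u0, hu0⟩ := hX0
        obtain ⟨v0, hv0⟩ := hY0
        by_cases hα : ∃ u, B x u ∧ ¬ P3 R (fun _ => True) x u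
        · obtain ⟨u, hu, hno⟩ := hα
          have hno' : ∀ z w, (x = z ∨ R x z) → (z = w ∨ R z w) → (w = u ∨ R w u) → False :=
            fun z w h1 h2 h3 => hno ⟨z, w, trivial, trivial, h1, h2, h3⟩
          have hY : ∀ v, B y v → N u v := by
            intro v hv
            rcases hXY u v hu hv with h | h
            · rcases cls' v with g | g | g | g
              · subst g; exact (hnc u hu (Bs _ _ (by exact (hno' v v (Or.inl rfl) (Or.inl rfl) (Or.inr (Rs _ _ h))).elim))).elim
              · subst g; exact absurd hv (Bx _)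
              · exact (hnc v g.1 hv).elim
              · exact (hno' v v (Or.inr g.1) (Or.inl rfl) (Or.inr (Rs _ _ h))).elim
            · exact h
          have hYu : ∀ v, B y v → v = v0 := fun v hv => Nu u v v0 (hY v hv) (hY v0 hv0)
          obtain ⟨e, e1, e2, e3, e4⟩ := h5 x y u v0
          have he : B x e ∧ R y e ∧ R e v0 := by
            rcases cls' e with g | g | g | g
            · exact absurd g e1
            · exact absurd g e2
            · refine ⟨g.1, g.2.1, ?_⟩
              rcases hXY e v0 g.1 hv0 with h | h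
              · exact h
              · exact absurd (Nu v0 e u (Ns _ _ h) (Ns _ _ (hY v0 hv0))) e3
            · exact absurd (hYu e g.2.1) e4
          have hR0 : ∀ w, B x w → w ≠ u → R w v0 := by
            intro w hw hwu
            rcases hXY w v0 hw hv0 with h | h
            · exact h
            · exact absurd (Nu v0 w u (Ns _ _ h) (Ns _ _ (hY v0 hv0))) hwu
          clear h5
          left
          refine ⟨u, ?_⟩
          intro a b ha hb
          by_contra hc
          have key : ∀ z w, z ≠ u → w ≠ u → (a = z ∨ R a z) → (z = w ∨ R z w) → (w = b ∨ R w b) → False :=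
            fun z w g1 g2 h1 h2 h3 => hc ⟨z, w, g1, g2, h1, h2, h3⟩
          rcases cls' a with h | h | h | h <;> rcases cls' b with h' | h' | h' | h' <;>
            grind
        · by_cases hβ : ∃ v, B y v ∧ ¬ P3 R (fun _ => True) y v
          · obtain ⟨v, hv, hno⟩ := hβ
            have hno' : ∀ z w, (y = z ∨ R y z) → (z = w ∨ R z w) → (w = v ∨ R w v) → False :=
              fun z w h1 h2 h3 => hno ⟨z, w, trivial, trivial, h1, h2, h3⟩
            have hX : ∀ u, B x u → N v u := by
              intro u hu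
              rcases hXY u v hu hv with h | h
              · rcases cls' u with g | g | g | g
                · subst g; exact absurd hu (Bx _)
                · subst g; exact (hno' u u (Or.inl rfl) (Or.inl rfl) (Or.inr h)).elim
                · exact (hno' u u (Or.inr g.2.1) (Or.inl rfl) (Or.inr h)).elim
                · exact (hnc u hu g.2.1).elim
              · exact Ns _ _ h
            have hXu : ∀ u, B x u → u = u0 := fun u hu => Nu v u u0 (hX u hu) (hX u0 hu0)
            obtain ⟨e, e1, e2, e3, e4⟩ := h5 x y v u0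
            have he : B y e ∧ R x e ∧ R e u0 := by
              rcases cls' e with g | g | g | g
              · exact absurd g e1
              · exact absurd g e2
              · exact absurd (hXu e g.1) e4
              · refine ⟨g.2.1, g.1, ?_⟩
                rcases hXY u0 e hu0 g.2.1 with h | h
                · exact Rs _ _ h
                · exact absurd (Nu u0 e v h (Ns _ _ (hX u0 hu0))) e3
            have hR0 : ∀ w, B y w → w ≠ v → R w u0 := by
              intro w hw hwv
              rcases hXY u0 w hu0 hw with h | h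
              · exact Rs _ _ h
              · exact absurd (Nu u0 w v h (Ns _ _ (hX u0 hu0))) hwv
            clear h5
            left
            refine ⟨v, ?_⟩
            intro a b ha hb
            by_contra hc
            have key : ∀ z w, z ≠ v → w ≠ v → (a = z ∨ R a z) → (z = w ∨ R z w) → (w = b ∨ R w b) → False :=
              fun z w g1 g2 h1 h2 h3 => hc ⟨z, w, g1, g2, h1, h2, h3⟩
            rcases cls' a with h | h | h | h <;> rcases cls' b with h' | h' | h' | h' <;>
              grind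
          · have hα' : ∀ u, B x u → P3 R (fun _ => True) x u := fun u hu => by
              by_contra h; exact hα ⟨u, hu, h⟩
            have hβ' : ∀ v, B y v → P3 R (fun _ => True) y v := fun v hv => by
              by_contra h; exact hβ ⟨v, hv, h⟩
            have huv : ∀ u v, B x u → B y v → P3 R (fun _ => True) u v := by
              intro u v hu hv
              rcases hXY u v hu hv with h | h
              · exact ⟨u, u, trivial, trivial, Or.inl rfl, Or.inl rfl, Or.inr h⟩
              · obtain ⟨e, e1, e2, e3, e4⟩ := h5 x y u v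
                have hRyu : R y u := by
                  rcases cls' u with g | g | g | g
                  · subst g; exact absurd hu (Bx _)
                  · subst g; exact (hnc _ hu (by
                      exact absurd hu (by
                        intro _
                        exact (F u u (Or.inr hu) (Or.inl rfl) (Or.inl rfl))))).elim
                  · exact g.2.1
                  · exact (hnc u hu g.2.1).elim
                have hRxv : R x v := by
                  rcases cls' v with g | g | g | g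
                  · subst g
                    exact (F v v (Or.inl rfl) (Or.inl rfl) (Or.inr (Bs _ _ hv))).elim
                  · subst g; exact absurd hv (Bx _)
                  · exact (hnc v g.1 hv).elim
                  · exact g.1
                rcases cls' e with g | g | g | g
                · exact absurd g e1
                · exact absurd g e2
                · have : R e v := by
                    rcases hXY e v g.1 hv with h' | h'
                    · exact h'
                    · exact absurd (Nu v e u (Ns _ _ h') (Ns _ _ h)) e3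
                  exact ⟨y, e, trivial, trivial, Or.inr (Rs _ _ hRyu), Or.inr g.2.1, Or.inr this⟩
                · have : R u e := by
                    rcases hXY u e hu g.2.1 with h' | h'
                    · exact h'
                    · exact absurd (Nu u e v h' h) e4
                  exact ⟨e, x, trivial, trivial, Or.inr this, Or.inr (Rs _ _ g.1), Or.inr hRxv⟩
            have hex : ∃ u v, B x u ∧ R y u ∧ B y v ∧ R x v ∧ R u v := by
              obtain ⟨e, e1, e2, e3, e4⟩ := h5 x y u0 v0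
              have g0 : R y u0 := by
                rcases cls' u0 with g | g | g | g
                · subst g; exact absurd hu0 (Bx _)
                · subst g; exact (F u0 u0 (Or.inr hu0) (Or.inl rfl) (Or.inl rfl)).elim
                · exact g.2.1
                · exact (hnc _ hu0 g.2.1).elim
              have g1 : R x v0 := by
                rcases cls' v0 with g | g | g | g
                · subst g; exact (F v0 v0 (Or.inl rfl) (Or.inl rfl) (Or.inr (Bs _ _ hv0))).elim
                · subst g; exact absurd hv0 (Bx _)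
                · exact (hnc _ g.1 hv0).elim
                · exact g.1
              rcases hXY u0 v0 hu0 hv0 with h | h
              · exact ⟨u0, v0, hu0, g0, hv0, g1, h⟩
              · rcases cls' e with g | g | g | g
                · exact absurd g e1
                · exact absurd g e2
                · rcases hXY e v0 g.1 hv0 with h' | h'
                  · exact ⟨e, v0, g.1, g.2.1, hv0, g1, h'⟩
                  · exact absurd (Nu v0 e u0 (Ns _ _ h') (Ns _ _ h)) e3
                · rcases hXY u0 e hu0 g.2.1 with h' | h'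
                  · exact ⟨u0, e, hu0, g0, g.2.1, g.1, h'⟩
                  · exact absurd (Nu u0 e v0 h' h) e4
            obtain ⟨u1, v1, a1, a2, a3, a4, a5⟩ := hex
            have hxy' : P3 R (fun _ => True) x y :=
              ⟨v1, u1, trivial, trivial, Or.inr a4, Or.inr (Rs _ _ a5), Or.inr (Rs _ _ a2)⟩
            have hrefl : ∀ a, P3 R (fun _ => True) a a := fun a =>
              ⟨a, a, trivial, trivial, Or.inl rfl, Or.inl rfl, Or.inl rfl⟩
            right; right
            intro a b _ _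
            rcases cls' a with h | h | h | h <;> rcases cls' b with h' | h' | h' | h'
            · subst h; subst h'; exact hrefl _
            · subst h; subst h'; exact hxy'
            · subst h; exact hα' b h'.1
            · subst h; exact ⟨b, b, trivial, trivial, Or.inr h'.1, Or.inl rfl, Or.inl rfl⟩
            · subst h; subst h'; exact hxy'.symm Rs
            · subst h; subst h'; exact hrefl _
            · subst h; exact ⟨b, b, trivial, trivial, Or.inr h'.2.1, Or.inl rfl, Or.inl rfl⟩
            · subst h; exact hβ' b h'.2.1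
            · subst h'; exact (hα' a h.1).symm Rs
            · subst h'; exact ⟨a, a, trivial, trivial, Or.inl rfl, Or.inl rfl, Or.inr (Rs _ _ h.2.1)⟩
            · exact ⟨y, y, trivial, trivial, Or.inr (Rs _ _ h.2.1), Or.inl rfl, Or.inr h'.2.1⟩
            · exact huv a b h.1 h'.2.1
            · subst h'; exact ⟨a, a, trivial, trivial, Or.inl rfl, Or.inl rfl, Or.inr (Rs _ _ h.1)⟩
            · subst h'; exact (hβ' a h.2.1).symm Rs
            · exact (huv b a h'.1 h.2.1).symm Rs
            · exact ⟨x, x, trivial, trivial, Or.inr (Rs _ _ h.1), Or.inl rfl, Or.inr h'.1⟩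
      · -- no blue neighbour of `y`
        left
        refine ⟨x, ?_⟩
        intro a b ha hb
        have hs : ∀ c, c ≠ x → c = y ∨ R y c := by
          intro c hc
          rcases cls' c with h | h | h | h
          · exact absurd h hc
          · exact Or.inl h
          · exact Or.inr h.2.1
          · exact absurd ⟨c, h.2.1⟩ hY0
        refine ⟨y, y, Ne.symm hne, Ne.symm hne, ?_, Or.inl rfl, ?_⟩
        · exact (hs a ha).imp id (Rs _ _)
        · exact (hs b hb).imp Eq.symm id
    · -- no blue neighbour of `x`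
      left
      refine ⟨y, ?_⟩
      intro a b ha hb
      have hs : ∀ c, c ≠ y → c = x ∨ R x c := by
        intro c hc
        rcases cls' c with h | h | h | h
        · exact Or.inl h
        · exact absurd h hc
        · exact absurd ⟨c, h.1⟩ hX0
        · exact Or.inr h.1
      refine ⟨x, x, hne, hne, ?_, Or.inl rfl, ?_⟩
      · exact (hs a ha).imp id (Rs _ _)
      · exact (hs b hb).imp Eq.symm id

include Rs Bs Ns Rx Bx Nx tot Nu in
/-- all but at most one vertex are covered by a monochromatic subgraph of diameter at most three -/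
lemma three_cover (h5 : ∀ a b c d : V, ∃ e, e ≠ a ∧ e ≠ b ∧ e ≠ c ∧ e ≠ d) :
    (∃ v, Good3 R (· ≠ v)) ∨ (∃ v, Good3 B (· ≠ v)) ∨ Good3 R (fun _ => True) ∨
      Good3 B (fun _ => True) := by
  by_cases hB : Good3 B (fun _ => True)
  · exact Or.inr (Or.inr (Or.inr hB))
  · unfold Good3 at hB
    push Not at hB
    obtain ⟨x, y, -, -, h⟩ := hB
    have F : ∀ z w, (x = z ∨ B x z) → (z = w ∨ B z w) → (w = y ∨ B w y) → False :=
      fun z w h1 h2 h3 => h ⟨z, w, trivial, trivial, h1, h2, h3⟩
    have hne : x ≠ y := fun h => F x x (Or.inl rfl) (Or.inl rfl) (Or.inl h)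
    have key : (∃ v, Good3 R (· ≠ v)) ∨ (∃ v, Good3 B (· ≠ v)) ∨ Good3 R (fun _ => True) := by
      rcases tot x y hne with g | g | g
      · exact case_adj Rs Bs Ns Rx Bx Nx tot Nu F g h5
      · exact (F x x (Or.inl rfl) (Or.inl rfl) (Or.inr g)).elim
      · exact case_non Rs Bs Ns Rx Bx Nx tot Nu F g h5
    rcases key with g | g | g
    · exact Or.inl g
    · exact Or.inr (Or.inl g)
    · exact Or.inr (Or.inr (Or.inl g))

end

/-! ### The positive part -/

theorem sub_ediam3 {V : Type} (G : SimpleGraph V) (c : Sym2 V → Bool) (b : Bool) (S : V → Prop)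
    (h : Good3 (colAdj G c b) S) : (sub G c b S).coe.ediam ≤ ((3 : ℕ) : ℕ∞) := by
  rw [SimpleGraph.ediam_le_iff]
  rintro ⟨x, hx⟩ ⟨y, hy⟩
  obtain ⟨z, w, hz, hw, h1, h2, h3⟩ := h x y hx hy
  have step : ∀ (p q : V) (hp : S p) (hq : S q), (p = q ∨ colAdj G c b p q) →
      (sub G c b S).coe.edist ⟨p, hp⟩ ⟨q, hq⟩ ≤ 1 := by
    intro p q hp hq h
    rcases h with h | h
    · subst h
      rw [SimpleGraph.edist_self]
      exact bot_le
    · have ha : (sub G c b S).coe.Adj ⟨p, hp⟩ ⟨q, hq⟩ := ⟨hp, hq, h⟩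
      refine (SimpleGraph.edist_le ha.toWalk).trans ?_
      simp
  calc (sub G c b S).coe.edist ⟨x, hx⟩ ⟨y, hy⟩
      ≤ (sub G c b S).coe.edist ⟨x, hx⟩ ⟨z, hz⟩ + (sub G c b S).coe.edist ⟨z, hz⟩ ⟨y, hy⟩ :=
        SimpleGraph.edist_triangle
    _ ≤ (sub G c b S).coe.edist ⟨x, hx⟩ ⟨z, hz⟩ + ((sub G c b S).coe.edist ⟨z, hz⟩ ⟨w, hw⟩ +
        (sub G c b S).coe.edist ⟨w, hw⟩ ⟨y, hy⟩) := by gcongr; exact SimpleGraph.edist_triangle
    _ ≤ 1 + (1 + 1) := by
        gcongr
        · exact step _ _ _ _ h1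
        · exact step _ _ _ _ h2
        · exact step _ _ _ _ h3
    _ = ((3 : ℕ) : ℕ∞) := by norm_num

theorem single_ediam {V : Type} (G : SimpleGraph V) (c : Sym2 V → Bool) (v : V) :
    (sub G c true (fun x => x = v)).coe.ediam ≤ ((0 : ℕ) : ℕ∞) := by
  rw [SimpleGraph.ediam_le_iff]
  rintro ⟨x, hx⟩ ⟨y, hy⟩
  have hx' : x = v := hx
  have hy' : y = v := hy
  subst hx'
  subst hy'
  rw [SimpleGraph.edist_self]
  exact bot_le

/-- **(0,3)-covers.** -/
theorem cover_zero_three (V : Type) (h5 : ∀ a b c d : V, ∃ e, e ≠ a ∧ e ≠ b ∧ e ≠ c ∧ e ≠ d)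
    [hne : Nonempty V] (G : SimpleGraph V)
    (hG : ∀ v a b : V, a ≠ v → b ≠ v → ¬ G.Adj v a → ¬ G.Adj v b → a = b)
    (c : Sym2 V → Bool) : HasCover G c 0 3 := by
  have fin : ∀ (b : Bool) (v : V), Good3 (colAdj G c b) (· ≠ v) → HasCover G c 0 3 := by
    intro b v h
    obtain ⟨e, he, -⟩ := h5 v v v v
    refine ⟨sub G c true (fun x => x = v), sub G c b (· ≠ v), sub_mono _ _ _ _, sub_mono _ _ _ _,
      ⟨v, rfl⟩, ⟨e, he⟩, single_ediam G c v, sub_ediam3 G c b _ h, ?_⟩
    apply Set.eq_univ_of_forall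
    intro x
    by_cases hx : x = v
    · exact Or.inl hx
    · exact Or.inr hx
  have fin' : ∀ (b : Bool), Good3 (colAdj G c b) (fun _ => True) → HasCover G c 0 3 := by
    intro b h
    obtain ⟨v⟩ := id hne
    refine ⟨sub G c true (fun x => x = v), sub G c b (fun _ => True), sub_mono _ _ _ _,
      sub_mono _ _ _ _, ⟨v, rfl⟩, ⟨v, trivial⟩, single_ediam G c v, sub_ediam3 G c b _ h, ?_⟩
    exact Set.eq_univ_of_forall fun x => Or.inr trivial
  have key := three_cover (R := colAdj G c true) (B := colAdj G c false)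
    (N := fun a b => a ≠ b ∧ ¬ G.Adj a b)
    (fun _ _ h => colAdj_symm h) (fun _ _ h => colAdj_symm h)
    (fun _ _ h => ⟨h.1.symm, fun h' => h.2 h'.symm⟩)
    (fun a h => G.loopless.irrefl a h.1) (fun a h => G.loopless.irrefl a h.1)
    (fun a h => h.1 rfl)
    (by
      intro a b hab
      by_cases h : G.Adj a b
      · cases hc : c s(a, b)
        · exact Or.inr (Or.inl ⟨h, hc⟩)
        · exact Or.inl ⟨h, hc⟩
      · exact Or.inr (Or.inr ⟨hab, h⟩))
    (fun v a b h1 h2 => hG v a b h1.1.symm h2.1.symm h1.2 h2.2) h5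
  rcases key with ⟨v, h⟩ | ⟨v, h⟩ | h | h
  · exact fin true v h
  · exact fin false v h
  · exact fin' true h
  · exact fin' false h

lemma cover_mono {V : Type} {G : SimpleGraph V} {c : Sym2 V → Bool} {p q p' q' : ℕ}
    (h : HasCover G c p q) (hp : p ≤ p') (hq : q ≤ q') : HasCover G c p' q' := by
  obtain ⟨H₁, H₂, a1, a2, a3, a4, a5, a6, a7⟩ := h
  exact ⟨H₁, H₂, a1, a2, a3, a4, a5.trans (by exact_mod_cast hp), a6.trans (by exact_mod_cast hq), a7⟩

lemma cover_swap {V : Type} {G : SimpleGraph V} {c : Sym2 V → Bool} {p q : ℕ}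
    (h : HasCover G c p q) : HasCover G c q p := by
  obtain ⟨H₁, H₂, a1, a2, a3, a4, a5, a6, a7⟩ := h
  exact ⟨H₂, H₁, a2, a1, a4, a3, a6, a5, by rw [Set.union_comm]; exact a7⟩

/-! ### Small diameters -/

lemma walk_of_ediam {V : Type} {G : SimpleGraph V} {H : G.Subgraph} {q : ℕ}
    (h : H.coe.ediam ≤ (q : ℕ∞)) {x y : V} (hx : x ∈ H.verts) (hy : y ∈ H.verts) :
    ∃ p : H.coe.Walk ⟨x, hx⟩ ⟨y, hy⟩, p.length ≤ q := by
  have h1 := (SimpleGraph.ediam_le_iff.mp h) ⟨x, hx⟩ ⟨y, hy⟩
  have hreach : H.coe.Reachable ⟨x, hx⟩ ⟨y, hy⟩ := by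
    apply SimpleGraph.reachable_of_edist_ne_top
    intro h2
    rw [h2] at h1
    exact absurd h1 (by simp)
  obtain ⟨p, hp⟩ := hreach.exists_walk_length_eq_edist
  refine ⟨p, ?_⟩
  rw [← hp] at h1
  exact_mod_cast h1

lemma of_ediam_zero {V : Type} {G : SimpleGraph V} {H : G.Subgraph}
    (h : H.coe.ediam ≤ ((0 : ℕ) : ℕ∞)) {x y : V} (hx : x ∈ H.verts) (hy : y ∈ H.verts) :
    x = y := by
  obtain ⟨p, hp⟩ := walk_of_ediam h hx hy
  match p, hp with
  | .nil, _ => rfl
  | .cons h q, hl => simp at hl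

/-- Two vertices of a subgraph of diameter at most one are equal or adjacent. -/
lemma of_ediam_one {V : Type} {G : SimpleGraph V} {H : G.Subgraph}
    (h : H.coe.ediam ≤ ((1 : ℕ) : ℕ∞)) {x y : V} (hx : x ∈ H.verts) (hy : y ∈ H.verts) :
    x = y ∨ H.Adj x y := by
  obtain ⟨p, hp⟩ := walk_of_ediam h hx hy
  match p, hp with
  | .nil, _ => exact Or.inl rfl
  | .cons h .nil, _ => exact Or.inr h
  | .cons h (.cons h' q), hl => simp at hl

/-- Two vertices of a subgraph of diameter at most two are equal, adjacent or have a common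
neighbour. -/
lemma of_ediam_two {V : Type} {G : SimpleGraph V} {H : G.Subgraph}
    (h : H.coe.ediam ≤ ((2 : ℕ) : ℕ∞)) {x y : V} (hx : x ∈ H.verts) (hy : y ∈ H.verts) :
    x = y ∨ H.Adj x y ∨ ∃ z, H.Adj x z ∧ H.Adj z y := by
  obtain ⟨p, hp⟩ := walk_of_ediam h hx hy
  match p, hp with
  | .nil, _ => exact Or.inl rfl
  | .cons h .nil, _ => exact Or.inr (Or.inl h)
  | .cons h (.cons h' .nil), _ => exact Or.inr (Or.inr ⟨_, h, h'⟩)
  | .cons h (.cons h' (.cons h'' q)), hl => simp at hl

/-! ### The cocktail-party graphs and colourings without covers -/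

/-- The cocktail-party graph `G_n`, `n = 2 m`: two vertices are adjacent unless they are equal or
form one of the pairs `(i, false)`, `(i, true)`. -/
def Cocktail (m : ℕ) : SimpleGraph (Fin m × Bool) where
  Adj x y := x.1 ≠ y.1
  symm := ⟨fun _ _ h => Ne.symm h⟩
  loopless := ⟨fun _ h => h rfl⟩

/-- a member of every pair is in the second subgraph if the first one has diameter at most one -/
lemma meets {m : ℕ} {H₁ H₂ : (Cocktail m).Subgraph} (h1 : H₁.coe.ediam ≤ ((1 : ℕ) : ℕ∞))
    (h : H₁.verts ∪ H₂.verts = Set.univ) (i : Fin m) : ∃ a, (i, a) ∈ H₂.verts := by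
  by_contra hc
  push Not at hc
  have hm : ∀ a, (i, a) ∈ H₁.verts := by
    intro a
    have : (i, a) ∈ H₁.verts ∪ H₂.verts := by rw [h]; trivial
    exact this.resolve_right (hc a)
  rcases of_ediam_one h1 (hm false) (hm true) with e | e
  · have := congrArg Prod.snd e
    simp at this
  · exact (H₁.adj_sub e) rfl

/-- the four classes of the blow-up of the path with four vertices -/
def part {m : ℕ} (x : Fin m × Bool) : ℕ := min x.1.val 3

/-- the colouring of the blow-up: consecutive classes are joined by the colour `true` -/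
def cP (m : ℕ) : Sym2 (Fin m × Bool) → Bool :=
  Sym2.lift ⟨fun x y => decide (part x + 1 = part y ∨ part y + 1 = part x), fun x y => by
    simp only [decide_eq_decide]
    exact or_comm⟩

lemma no_one_two {m : ℕ} (hm : 4 ≤ m) : ¬ HasCover (Cocktail m) (cP m) 1 2 := by
  rintro ⟨H₁, H₂, -, ⟨b, hb⟩, -, -, h1, h2, h⟩
  obtain ⟨a0, h0⟩ := meets h1 h ⟨0, by omega⟩
  obtain ⟨a1, h1'⟩ := meets h1 h ⟨1, by omega⟩
  obtain ⟨a2, h2'⟩ := meets h1 h ⟨2, by omega⟩
  obtain ⟨a3, h3⟩ := meets h1 h ⟨3, by omega⟩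
  have hcol : ∀ x y, H₂.Adj x y → decide (part x + 1 = part y ∨ part y + 1 = part x) = b := by
    intro x y hxy
    exact hb s(x, y) (by rw [SimpleGraph.Subgraph.mem_edgeSet]; exact hxy)
  cases b with
  | true =>
    have hcol' : ∀ x y, H₂.Adj x y → (part x + 1 = part y ∨ part y + 1 = part x) :=
      fun x y h => of_decide_eq_true (hcol x y h)
    have e0 : part ((⟨0, by omega⟩, a0) : Fin m × Bool) = 0 := rfl
    have e3 : part ((⟨3, by omega⟩, a3) : Fin m × Bool) = 3 := rfl
    rcases of_ediam_two h2 h0 h3 with e | e | ⟨z, e, e'⟩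
    · rw [e, e3] at e0
      omega
    · have := hcol' _ _ e
      omega
    · have g1 := hcol' _ _ e
      have g2 := hcol' _ _ e'
      omega
  | false =>
    have hcol' : ∀ x y, H₂.Adj x y → ¬ (part x + 1 = part y ∨ part y + 1 = part x) :=
      fun x y h => of_decide_eq_false (hcol x y h)
    have e1 : part ((⟨1, by omega⟩, a1) : Fin m × Bool) = 1 := rfl
    have e2 : part ((⟨2, by omega⟩, a2) : Fin m × Bool) = 2 := rfl
    rcases of_ediam_two h2 h1' h2' with e | e | ⟨z, e, e'⟩
    · rw [e, e2] at e1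
      omega
    · have := hcol' _ _ e
      omega
    · have g1 := hcol' _ _ e
      have g2 := hcol' _ _ e'
      have hz : part z ≤ 3 := min_le_right _ _
      omega

/-- the decomposition of the octahedron into two hexagons -/
def f6 (x y : Fin 3 × Bool) : Bool :=
  if x.1 = 0 ∧ y.1 = 1 then !y.2
  else if x.1 = 1 ∧ y.1 = 0 then !x.2
  else if x.1 = 1 ∧ y.1 = 2 then x.2
  else if x.1 = 2 ∧ y.1 = 1 then y.2
  else x.2 == y.2

def c6 : Sym2 (Fin 3 × Bool) → Bool := Sym2.lift ⟨f6, by decide⟩

/-- opposite vertices of the hexagons -/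
def opp (b : Bool) (x : Fin 3 × Bool) : Fin 3 × Bool :=
  (2 - x.1, if x.1 = 1 then !x.2 else if b then !x.2 else x.2)

lemma opp_far : ∀ (b : Bool) (x : Fin 3 × Bool), x ≠ opp b x ∧
    ¬ (x.1 ≠ (opp b x).1 ∧ f6 x (opp b x) = b) ∧
    ∀ z : Fin 3 × Bool, ¬ ((x.1 ≠ z.1 ∧ f6 x z = b) ∧ (z.1 ≠ (opp b x).1 ∧ f6 z (opp b x) = b)) := by
  decide

lemma no_triangle : ∀ b b' : Bool, ∀ x y z : Fin 3 × Bool, (x = (0, false) ∨ x = opp b (0, false)) →
    (y = (1, false) ∨ y = opp b (1, false)) → (z = (0, true) ∨ z = opp b (0, true)) →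
    ¬ ((x = y ∨ x.1 ≠ y.1 ∧ f6 x y = b') ∧ (y = z ∨ y.1 ≠ z.1 ∧ f6 y z = b') ∧
      (x = z ∨ x.1 ≠ z.1 ∧ f6 x z = b')) := by
  decide

lemma no_one_two_six : ¬ HasCover (Cocktail 3) c6 1 2 := by
  rintro ⟨H₁, H₂, ⟨b', hb'⟩, ⟨b, hb⟩, -, -, h1, h2, h⟩
  have hcol : ∀ x y, H₂.Adj x y → (x.1 ≠ y.1 ∧ f6 x y = b) := by
    intro x y hxy
    exact ⟨H₂.adj_sub hxy, hb s(x, y) (by rw [SimpleGraph.Subgraph.mem_edgeSet]; exact hxy)⟩
  have hcol' : ∀ x y, H₁.Adj x y → (x.1 ≠ y.1 ∧ f6 x y = b') := by
    intro x y hxy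
    exact ⟨H₁.adj_sub hxy, hb' s(x, y) (by rw [SimpleGraph.Subgraph.mem_edgeSet]; exact hxy)⟩
  have hpair : ∀ x, ∃ y, (y = x ∨ y = opp b x) ∧ y ∈ H₁.verts := by
    intro x
    by_contra hc
    push Not at hc
    have hm : ∀ y, (y = x ∨ y = opp b x) → y ∈ H₂.verts := by
      intro y hy
      have : y ∈ H₁.verts ∪ H₂.verts := by rw [h]; trivial
      exact this.resolve_left (hc y hy)
    obtain ⟨o1, o2, o3⟩ := opp_far b x
    rcases of_ediam_two h2 (hm x (Or.inl rfl)) (hm _ (Or.inr rfl)) with e | e | ⟨z, e, e'⟩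
    · exact o1 e
    · exact o2 (hcol _ _ e)
    · exact o3 z ⟨hcol _ _ e, hcol _ _ e'⟩
  obtain ⟨x, hx, hx'⟩ := hpair (0, false)
  obtain ⟨y, hy, hy'⟩ := hpair (1, false)
  obtain ⟨z, hz, hz'⟩ := hpair (0, true)
  exact no_triangle b b' x y z hx hy hz
    ⟨(of_ediam_one h1 hx' hy').imp id (hcol' _ _), (of_ediam_one h1 hy' hz').imp id (hcol' _ _),
      (of_ediam_one h1 hx' hz').imp id (hcol' _ _)⟩

/-! ### Four vertices -/

def f4 (x y : Fin 2 × Bool) : Bool := x.2 == y.2

def c4 : Sym2 (Fin 2 × Bool) → Bool := Sym2.lift ⟨f4, by decide⟩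

def mate (b : Bool) (x : Fin 2 × Bool) : Fin 2 × Bool := (1 - x.1, if b then x.2 else !x.2)

lemma mate_spec : ∀ (b : Bool) (x y : Fin 2 × Bool), x.1 ≠ y.1 → f4 x y = b → y = mate b x := by
  decide

lemma mate_mate : ∀ (b : Bool) (x : Fin 2 × Bool), mate b (mate b x) = x := by
  decide

lemma no_zero (q : ℕ) : ¬ HasCover (Cocktail 2) c4 0 q := by
  rintro ⟨H₁, H₂, -, ⟨b, hb⟩, ⟨v, hv⟩, -, h1, h2, h⟩
  have hcol : ∀ x y, H₂.Adj x y → y = mate b x := by
    intro x y hxy
    exact mate_spec b x y (H₂.adj_sub hxy)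
      (hb s(x, y) (by rw [SimpleGraph.Subgraph.mem_edgeSet]; exact hxy))
  have hwalk : ∀ (x y : H₂.verts), H₂.coe.Walk x y → y.1 = x.1 ∨ y.1 = mate b x.1 := by
    intro x y p
    induction p with
    | nil => exact Or.inl rfl
    | cons e _ ih =>
      have h3 := hcol _ _ e
      rw [h3, mate_mate] at ih
      exact ih.symm
  have hex : ∀ (b : Bool) (v : Fin 2 × Bool), ∃ x y : Fin 2 × Bool, x ≠ v ∧ y ≠ v ∧ y ≠ x ∧
      y ≠ mate b x := by decide
  obtain ⟨x, y, hx, hy, hyx, hym⟩ := hex b v
  have hm : ∀ w, w ≠ v → w ∈ H₂.verts := by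
    intro w hw
    have : w ∈ H₁.verts ∪ H₂.verts := by rw [h]; trivial
    exact this.resolve_left fun hw' => hw (of_ediam_zero h1 hw' hv)
  obtain ⟨p, -⟩ := walk_of_ediam h2 (hm x hx) (hm y hy)
  rcases hwalk _ _ p with e | e
  · exact hyx e
  · exact hym e

lemma edge_ediam {V : Type} (G : SimpleGraph V) (c : Sym2 V → Bool) {u v : V} (h : G.Adj u v) :
    (sub G c (c s(u, v)) (fun x => x = u ∨ x = v)).coe.ediam ≤ ((1 : ℕ) : ℕ∞) := by
  rw [SimpleGraph.ediam_le_iff]
  have huv : (sub G c (c s(u, v)) (fun x => x = u ∨ x = v)).coe.Adj ⟨u, Or.inl rfl⟩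
      ⟨v, Or.inr rfl⟩ := ⟨Or.inl rfl, Or.inr rfl, h, rfl⟩
  rintro ⟨x, rfl | rfl⟩ ⟨y, rfl | rfl⟩
  · rw [SimpleGraph.edist_self]; exact bot_le
  · exact (SimpleGraph.edist_le huv.toWalk).trans (by simp)
  · exact (SimpleGraph.edist_le huv.symm.toWalk).trans (by simp)
  · rw [SimpleGraph.edist_self]; exact bot_le

lemma one_one (c : Sym2 (Fin 2 × Bool) → Bool) : HasCover (Cocktail 2) c 1 1 := by
  have h1 : (Cocktail 2).Adj (0, false) (1, false) := by change (0 : Fin 2) ≠ 1; decide
  have h2 : (Cocktail 2).Adj (0, true) (1, true) := by change (0 : Fin 2) ≠ 1; decide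
  refine ⟨_, _, sub_mono _ c _ _, sub_mono _ c _ _, ⟨_, Or.inl rfl⟩, ⟨_, Or.inl rfl⟩,
    edge_ediam _ c h1, edge_ediam _ c h2, ?_⟩
  apply Set.eq_univ_of_forall
  rintro ⟨i, a⟩
  have h3 : i = 0 ∨ i = 1 := by omega
  rcases h3 with rfl | rfl <;> cases a
  · exact Or.inl (Or.inl rfl)
  · exact Or.inr (Or.inl rfl)
  · exact Or.inl (Or.inr rfl)
  · exact Or.inr (Or.inr rfl)

lemma zero_zero (c : Sym2 (Fin 1 × Bool) → Bool) : HasCover (Cocktail 1) c 0 0 := by
  refine ⟨_, _, sub_mono _ c true (fun x => x = (0, false)), sub_mono _ c true (fun x => x = (0, true)),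
    ⟨_, rfl⟩, ⟨_, rfl⟩, single_ediam _ c _, single_ediam _ c _, ?_⟩
  apply Set.eq_univ_of_forall
  rintro ⟨i, a⟩
  have h3 : i = 0 := Subsingleton.elim _ _
  subst h3
  cases a
  · exact Or.inl rfl
  · exact Or.inr rfl

lemma cocktail_hG (m : ℕ) (v a b : Fin m × Bool) (ha : a ≠ v) (hb : b ≠ v)
    (h1 : ¬ (Cocktail m).Adj v a) (h2 : ¬ (Cocktail m).Adj v b) : a = b := by
  have e1 : v.1 = a.1 := not_not.mp h1
  have e2 : v.1 = b.1 := not_not.mp h2
  have e3 : a.2 ≠ v.2 := fun h => ha (Prod.ext e1.symm h)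
  have e4 : b.2 ≠ v.2 := fun h => hb (Prod.ext e2.symm h)
  refine Prod.ext (e1.symm.trans e2) ?_
  cases ha' : a.2 <;> cases hb' : b.2 <;> cases hv' : v.2 <;> simp_all

lemma cocktail_five {m : ℕ} (hm : 3 ≤ m) (a b c d : Fin m × Bool) :
    ∃ e, e ≠ a ∧ e ≠ b ∧ e ≠ c ∧ e ≠ d := by
  by_contra hc
  push Not at hc
  have h1 : (Finset.univ : Finset (Fin m × Bool)) ⊆ {a, b, c, d} := by
    intro e _
    simp only [Finset.mem_insert, Finset.mem_singleton]
    by_contra h
    push Not at h
    exact h.2.2.2 (hc e h.1 h.2.1 h.2.2.1)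
  have h2 := Finset.card_le_card h1
  have h3 : (Finset.univ : Finset (Fin m × Bool)).card = m * 2 := by simp
  have h4 : ({a, b, c, d} : Finset (Fin m × Bool)).card ≤ 4 := Finset.card_le_four
  omega

/-- **The exact set of guaranteed covers.**

(1) Every 2-colouring of a graph with at least five vertices (finite or infinite) in which every
vertex is non-adjacent to at most one other vertex has a `(0,3)`-cover: a monochromatic subgraph of
diameter at most `3` contains all vertices, or all vertices but one.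

(2) For every even `n = 2 m ≥ 6` every 2-colouring of the cocktail-party graph `G_n` has a
`(p,q)`-cover if and only if `p ≥ 3` or `q ≥ 3` or `p, q ≥ 2`.

(3) For `n = 4` if and only if `p, q ≥ 1`. (4) For `n = 2` always. -/
theorem result :
    (∀ (V : Type), (∀ a b c d : V, ∃ e, e ≠ a ∧ e ≠ b ∧ e ≠ c ∧ e ≠ d) → [Nonempty V] →
      ∀ (G : SimpleGraph V),
      (∀ v a b : V, a ≠ v → b ≠ v → ¬ G.Adj v a → ¬ G.Adj v b → a = b) →
      ∀ c : Sym2 V → Bool, HasCover G c 0 3) ∧
    (∀ m : ℕ, 3 ≤ m → ∀ p q : ℕ, (∀ c : Sym2 (Fin m × Bool) → Bool, HasCover (Cocktail m) c p q) ↔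
      (3 ≤ p ∨ 3 ≤ q ∨ (2 ≤ p ∧ 2 ≤ q))) ∧
    (∀ p q : ℕ, (∀ c : Sym2 (Fin 2 × Bool) → Bool, HasCover (Cocktail 2) c p q) ↔
      (1 ≤ p ∧ 1 ≤ q)) ∧
    (∀ p q : ℕ, ∀ c : Sym2 (Fin 1 × Bool) → Bool, HasCover (Cocktail 1) c p q) := by
  refine ⟨fun V h5 _ G hG c => cover_zero_three V h5 G hG c, ?_, ?_, ?_⟩
  · intro m hm p q
    have hne : Nonempty (Fin m × Bool) := ⟨(⟨0, by omega⟩, false)⟩
    constructor
    · intro h
      by_contra hc
      push Not at hc
      obtain ⟨h1, h2, h3⟩ := hc
      have hno : ∃ c : Sym2 (Fin m × Bool) → Bool, ¬ HasCover (Cocktail m) c 1 2 := by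
        rcases eq_or_lt_of_le hm with e | e
        · subst e
          exact ⟨c6, no_one_two_six⟩
        · exact ⟨cP m, no_one_two e⟩
      obtain ⟨c, hc⟩ := hno
      by_cases hp : p ≤ 1
      · exact hc (cover_mono (h c) hp (by omega))
      · exact hc (cover_mono (cover_swap (h c)) (by omega) (by omega))
    · rintro (h | h | ⟨h, h'⟩) c
      · exact cover_swap (cover_mono (cover_zero_three _ (cocktail_five hm) _ (cocktail_hG m) c)
          (Nat.zero_le _) h)
      · exact cover_mono (cover_zero_three _ (cocktail_five hm) _ (cocktail_hG m) c)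
          (Nat.zero_le _) h
      · exact cover_mono (general _ _ (cocktail_hG m) c) h h'
  · intro p q
    constructor
    · intro h
      constructor
      · by_contra hp
        have : p = 0 := by omega
        subst this
        exact no_zero q (h c4)
      · by_contra hq
        have : q = 0 := by omega
        subst this
        exact no_zero p (cover_swap (h c4))
    · rintro ⟨h, h'⟩ c
      exact cover_mono (one_one c) h h'
  · intro p q c
    exact cover_mono (zero_zero c) (Nat.zero_le _) (Nat.zero_le _)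

end Pool.Agent.Results.MP_9fa5c3_co.ExactPairs
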